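import Pool.Agent.R294.Plastic3

/-!
# Dense sigma-compact subgroups of the line are never plastic
-/

set_option autoImplicit false

namespace Pool.Agent.Results.MP_fc2771_gt.NoPlasticSigmaCompact

open Set

/-- A metric space is plastic if every non-expansive bijection of it is an isometry. -/
def IsPlastic (X : Type*) [MetricSpace X] : Prop :=
  ∀ f : X → X, Function.Bijective f → (∀ x y, dist (f x) (f y) ≤ dist x y) →
    ∀ x y, dist (f x) (f y) = dist x y

/-- Strictly convex metric spaces: whenever `a, b > 0` and `a + b = d(x,y)`, there is exactly one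
`z` with `d(x,z) = a` and `d(z,y) = b`. -/
def IsStrictlyConvex (X : Type*) [MetricSpace X] : Prop :=
  ∀ (x y : X) (a b : ℝ), 0 < a → 0 < b → a + b = dist x y →
    ∃! z : X, dist x z = a ∧ dist z y = b

lemma real_strictlyConvex : IsStrictlyConvex ℝ := by
  intro x y a b ha hb hab
  rw [Real.dist_eq] at hab
  rcases abs_cases (x - y) with ⟨h1, h2⟩ | ⟨h1, h2⟩
  · refine ⟨x - a, ⟨?_, ?_⟩, ?_⟩
    · rw [Real.dist_eq, abs_of_pos (by linarith)]; ring
    · rw [Real.dist_eq, abs_of_pos (by linarith)]; linarith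
    · rintro z ⟨h3, h4⟩
      rw [Real.dist_eq] at h3 h4
      rcases abs_cases (x - z) with ⟨h5, h6⟩ | ⟨h5, h6⟩ <;>
        rcases abs_cases (z - y) with ⟨h7, h8⟩ | ⟨h7, h8⟩ <;> linarith
  · refine ⟨x + a, ⟨?_, ?_⟩, ?_⟩
    · rw [Real.dist_eq, abs_of_neg (by linarith)]; ring
    · rw [Real.dist_eq, abs_of_neg (by linarith)]; linarith
    · rintro z ⟨h3, h4⟩
      rw [Real.dist_eq] at h3 h4
      rcases abs_cases (x - z) with ⟨h5, h6⟩ | ⟨h5, h6⟩ <;>
        rcases abs_cases (z - y) with ⟨h7, h8⟩ | ⟨h7, h8⟩ <;> linarith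

/-- **Negative answers to Q2 and Q1.** No dense sigma-compact subgroup of the real line is plastic,
so the real line, a separable strictly convex metric abelian group, has no dense sigma-compact
plastic subgroup. -/
theorem result :
    (∀ H : AddSubgroup ℝ, Dense (H : Set ℝ) → IsSigmaCompact (H : Set ℝ) → ¬ IsPlastic H) ∧
    ∃ (G : Type) (_ : AddCommGroup G) (_ : MetricSpace G),
      (∀ x y z : G, dist (x + z) (y + z) = dist x y) ∧ TopologicalSpace.SeparableSpace G ∧
      IsStrictlyConvex G ∧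
      ¬ ∃ H : AddSubgroup G, Dense (H : Set G) ∧ IsSigmaCompact (H : Set G) ∧ IsPlastic H := by
  have key : ∀ H : AddSubgroup ℝ, Dense (H : Set ℝ) → IsSigmaCompact (H : Set ℝ) →
      ¬ IsPlastic H := by
    intro H hd hs hp
    obtain ⟨f, hf, hle, x, y, hne⟩ := Pool.Agent.R294.Plastic.sigmaCompact_not_plastic hd hs
    exact hne (hp f hf hle x y)
  refine ⟨key, ℝ, inferInstance, inferInstance, fun x y z => dist_add_right x y z, inferInstance,
    real_strictlyConvex, ?_⟩
  rintro ⟨H, hd, hs, hp⟩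
  exact key H hd hs hp

end Pool.Agent.Results.MP_fc2771_gt.NoPlasticSigmaCompact
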